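import Mathlib

set_option autoImplicit false

open MeasureTheory

namespace Pool.Agent.W632.Schiffer

variable {E : Type*} [NormedAddCommGroup E] [InnerProductSpace ℝ E] [FiniteDimensional ℝ E]
  [MeasurableSpace E] [BorelSpace E]

/-- cut-off argument: the two weak identities hold for all smooth functions when Ω is bounded. -/
theorem weak_all {Ω : Set E} (hb : Bornology.IsBounded Ω) (hm : MeasurableSet Ω)
    {c lam : ℝ} {u : E → ℝ} {G : E → E}
    (h1 : ∀ φ : E → ℝ, ContDiff ℝ 1 φ → HasCompactSupport φ → ∀ v : E,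
        ∫ x in Ω, (u x - c) * (fderiv ℝ φ x v) = - ∫ x in Ω, inner ℝ (G x) v * φ x)
    (h2 : ∀ φ : E → ℝ, ContDiff ℝ 1 φ → HasCompactSupport φ →
        ∫ x in Ω, fderiv ℝ φ x (G x) = lam * ∫ x in Ω, u x * φ x)
    (ψ : E → ℝ) (hψ : ContDiff ℝ 1 ψ) :
    (∀ v : E, ∫ x in Ω, (u x - c) * (fderiv ℝ ψ x v) = - ∫ x in Ω, inner ℝ (G x) v * ψ x) ∧
      ∫ x in Ω, fderiv ℝ ψ x (G x) = lam * ∫ x in Ω, u x * ψ x := by
  obtain ⟨R, hR0, hR⟩ : ∃ R : ℝ, 0 < R ∧ Ω ⊆ Metric.ball 0 R := by
    obtain ⟨R, hR⟩ := hb.subset_ball 0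
    exact ⟨max R 1, by positivity, hR.trans (Metric.ball_subset_ball (le_max_left _ _))⟩
  let f : ContDiffBump (0 : E) := ⟨R, R + 1, hR0, by linarith⟩
  have hf1 : ∀ x ∈ Ω, f x = 1 := fun x hx =>
    f.one_of_mem_closedBall (Metric.ball_subset_closedBall (hR hx))
  have hfe : ∀ x ∈ Ω, (fun y => f y * ψ y) =ᶠ[nhds x] ψ := by
    intro x hx
    filter_upwards [f.eventuallyEq_one_of_mem_ball (hR hx)] with y hy
    simp only [Pi.one_apply] at hy
    rw [hy, one_mul]
  have hfd : ∀ x ∈ Ω, fderiv ℝ (fun y => f y * ψ y) x = fderiv ℝ ψ x := fun x hx =>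
    (hfe x hx).fderiv_eq
  have hcd : ContDiff ℝ 1 (fun y => f y * ψ y) := by
    have := (f.contDiff (n := 1)).mul hψ
    exact this
  have hcs : HasCompactSupport (fun y => f y * ψ y) := f.hasCompactSupport.mul_right
  refine ⟨fun v => ?_, ?_⟩
  · have := h1 _ hcd hcs v
    have e1 : ∫ x in Ω, (u x - c) * (fderiv ℝ (fun y => f y * ψ y) x v)
        = ∫ x in Ω, (u x - c) * (fderiv ℝ ψ x v) :=
      setIntegral_congr_fun hm (fun x hx => by simp only [hfd x hx])
    have e2 : ∫ x in Ω, inner ℝ (G x) v * (f x * ψ x) = ∫ x in Ω, inner ℝ (G x) v * ψ x :=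
      setIntegral_congr_fun hm (fun x hx => by simp only [hf1 x hx, one_mul])
    rw [← e1, ← e2]
    exact this
  · have := h2 _ hcd hcs
    have e1 : ∫ x in Ω, fderiv ℝ (fun y => f y * ψ y) x (G x)
        = ∫ x in Ω, fderiv ℝ ψ x (G x) :=
      setIntegral_congr_fun hm (fun x hx => by simp only [hfd x hx])
    have e2 : ∫ x in Ω, u x * (f x * ψ x) = ∫ x in Ω, u x * ψ x :=
      setIntegral_congr_fun hm (fun x hx => by simp only [hf1 x hx, one_mul])
    rw [← e1, ← e2]
    exact this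

omit [FiniteDimensional ℝ E] [MeasurableSpace E] [BorelSpace E] in
theorem fderiv_sin_inner (ξ x v : E) :
    fderiv ℝ (fun y => Real.sin (inner ℝ ξ y)) x v = Real.cos (inner ℝ ξ x) * inner ℝ ξ v := by
  have h : HasFDerivAt (fun y : E => inner ℝ ξ y) (innerSL ℝ ξ) x := (innerSL ℝ ξ).hasFDerivAt
  rw [(h.sin).fderiv]
  simp

omit [FiniteDimensional ℝ E] [MeasurableSpace E] [BorelSpace E] in
theorem fderiv_cos_inner (ξ x v : E) :
    fderiv ℝ (fun y => Real.cos (inner ℝ ξ y)) x v = - (Real.sin (inner ℝ ξ x) * inner ℝ ξ v) := by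
  have h : HasFDerivAt (fun y : E => inner ℝ ξ y) (innerSL ℝ ξ) x := (innerSL ℝ ξ).hasFDerivAt
  rw [(h.cos).fderiv]
  simp

/-- the basic identities tested with plane waves -/
theorem star {Ω : Set E} (hb : Bornology.IsBounded Ω) (hm : MeasurableSet Ω)
    {c lam : ℝ} {u : E → ℝ} {G : E → E}
    (hu : IntegrableOn u Ω)
    (h1 : ∀ φ : E → ℝ, ContDiff ℝ 1 φ → HasCompactSupport φ → ∀ v : E,
        ∫ x in Ω, (u x - c) * (fderiv ℝ φ x v) = - ∫ x in Ω, inner ℝ (G x) v * φ x)
    (h2 : ∀ φ : E → ℝ, ContDiff ℝ 1 φ → HasCompactSupport φ →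
        ∫ x in Ω, fderiv ℝ φ x (G x) = lam * ∫ x in Ω, u x * φ x) (ξ : E) :
    (‖ξ‖ ^ 2 - lam) * (∫ x in Ω, u x * Real.cos (inner ℝ ξ x))
        = c * ‖ξ‖ ^ 2 * ∫ x in Ω, Real.cos (inner ℝ ξ x) ∧
    (‖ξ‖ ^ 2 - lam) * (∫ x in Ω, u x * Real.sin (inner ℝ ξ x))
        = c * ‖ξ‖ ^ 2 * ∫ x in Ω, Real.sin (inner ℝ ξ x) := by
  have hfin : volume Ω < ⊤ := hb.measure_lt_top
  have hcs : ContDiff ℝ 1 (fun y : E => Real.sin (inner ℝ ξ y)) :=
    Real.contDiff_sin.comp (contDiff_const.inner ℝ contDiff_id)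
  have hcc : ContDiff ℝ 1 (fun y : E => Real.cos (inner ℝ ξ y)) :=
    Real.contDiff_cos.comp (contDiff_const.inner ℝ contDiff_id)
  have hiu_c : IntegrableOn (fun x => u x * Real.cos (inner ℝ ξ x)) Ω := by
    refine Integrable.mul_bdd (c := 1) hu hcc.continuous.aestronglyMeasurable ?_
    exact Filter.Eventually.of_forall fun x => by simpa using Real.abs_cos_le_one _
  have hiu_s : IntegrableOn (fun x => u x * Real.sin (inner ℝ ξ x)) Ω := by
    refine Integrable.mul_bdd (c := 1) hu hcs.continuous.aestronglyMeasurable ?_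
    exact Filter.Eventually.of_forall fun x => by simpa using Real.abs_sin_le_one _
  have hone : IntegrableOn (fun _ : E => (1 : ℝ)) Ω := by
    simpa using (integrableOn_const (μ := (volume : Measure E)) (s := Ω) (C := (1 : ℝ))
      (by exact hfin.ne))
  have hi_c : IntegrableOn (fun x => Real.cos (inner ℝ ξ x)) Ω := by
    have := Integrable.mul_bdd (c := 1) hone hcc.continuous.aestronglyMeasurable
      (Filter.Eventually.of_forall fun x => by simpa using Real.abs_cos_le_one _)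
    simpa [IntegrableOn] using this
  have hi_s : IntegrableOn (fun x => Real.sin (inner ℝ ξ x)) Ω := by
    have := Integrable.mul_bdd (c := 1) hone hcs.continuous.aestronglyMeasurable
      (Filter.Eventually.of_forall fun x => by simpa using Real.abs_sin_le_one _)
    simpa [IntegrableOn] using this
  obtain ⟨hs1, hs2⟩ := weak_all hb hm h1 h2 _ hcs
  obtain ⟨hc1, hc2⟩ := weak_all hb hm h1 h2 _ hcc
  constructor
  · have e1 := hs1 ξ
    have e2 := hc2
    have k1 : ∫ x in Ω, (u x - c) * (fderiv ℝ (fun y => Real.sin (inner ℝ ξ y)) x ξ)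
        = ‖ξ‖ ^ 2 * (∫ x in Ω, u x * Real.cos (inner ℝ ξ x))
          - c * ‖ξ‖ ^ 2 * ∫ x in Ω, Real.cos (inner ℝ ξ x) := by
      rw [← integral_const_mul, ← integral_const_mul, ← integral_sub (hiu_c.const_mul _)
        (hi_c.const_mul _)]
      refine integral_congr_ae (Filter.Eventually.of_forall fun x => ?_)
      simp only [fderiv_sin_inner, real_inner_self_eq_norm_sq]
      ring
    have k2 : ∫ x in Ω, fderiv ℝ (fun y => Real.cos (inner ℝ ξ y)) x (G x)
        = - ∫ x in Ω, inner ℝ (G x) ξ * Real.sin (inner ℝ ξ x) := by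
      rw [← integral_neg]
      refine integral_congr_ae (Filter.Eventually.of_forall fun x => ?_)
      simp only [fderiv_cos_inner, real_inner_comm (G x) ξ]
      ring
    rw [k1] at e1
    rw [k2] at e2
    linarith
  · have e1 := hc1 ξ
    have e2 := hs2
    have k1 : ∫ x in Ω, (u x - c) * (fderiv ℝ (fun y => Real.cos (inner ℝ ξ y)) x ξ)
        = - (‖ξ‖ ^ 2 * (∫ x in Ω, u x * Real.sin (inner ℝ ξ x))
          - c * ‖ξ‖ ^ 2 * ∫ x in Ω, Real.sin (inner ℝ ξ x)) := by
      rw [← integral_const_mul, ← integral_const_mul, ← integral_sub (hiu_s.const_mul _)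
        (hi_s.const_mul _), ← integral_neg]
      refine integral_congr_ae (Filter.Eventually.of_forall fun x => ?_)
      simp only [fderiv_cos_inner, real_inner_self_eq_norm_sq]
      ring
    have k2 : ∫ x in Ω, fderiv ℝ (fun y => Real.sin (inner ℝ ξ y)) x (G x)
        = ∫ x in Ω, inner ℝ (G x) ξ * Real.cos (inner ℝ ξ x) := by
      refine integral_congr_ae (Filter.Eventually.of_forall fun x => ?_)
      simp only [fderiv_sin_inner, real_inner_comm (G x) ξ]
      ring
    rw [k1] at e1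
    rw [k2] at e2
    linarith

end Pool.Agent.W632.Schiffer
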