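import Pool.Agent.W632.Schiffer1

set_option autoImplicit false

open MeasureTheory

namespace Pool.Agent.W632.Schiffer

variable {E : Type*} [NormedAddCommGroup E] [InnerProductSpace ℝ E] [FiniteDimensional ℝ E]
  [MeasurableSpace E] [BorelSpace E]

/-- an integrable function whose Fourier transform vanishes is zero almost everywhere -/
theorem ae_zero_of_ft {μ : Measure E} {u : E → ℝ} (hu : Integrable u μ)
    (hc : ∀ ξ : E, ∫ x, u x * Real.cos (inner ℝ ξ x) ∂μ = 0)
    (hs : ∀ ξ : E, ∫ x, u x * Real.sin (inner ℝ ξ x) ∂μ = 0) : u =ᵐ[μ] 0 := by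
  have hm1 : AEMeasurable (fun x => ENNReal.ofReal (u x)) μ := hu.aemeasurable.ennreal_ofReal
  have hm2 : AEMeasurable (fun x => ENNReal.ofReal (- u x)) μ := hu.neg.aemeasurable.ennreal_ofReal
  have f1 : IsFiniteMeasure (μ.withDensity fun x => ENNReal.ofReal (u x)) :=
    isFiniteMeasure_withDensity_ofReal hu.2
  have f2 : IsFiniteMeasure (μ.withDensity fun x => ENNReal.ofReal (- u x)) :=
    isFiniteMeasure_withDensity_ofReal hu.neg.2
  have key : μ.withDensity (fun x => ENNReal.ofReal (u x))
      = μ.withDensity (fun x => ENNReal.ofReal (- u x)) := by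
    apply Measure.ext_of_charFun
    funext ξ
    rw [charFun_apply, charFun_apply,
      integral_withDensity_eq_integral_toReal_smul₀ hm1
        (Filter.Eventually.of_forall fun x => ENNReal.ofReal_lt_top),
      integral_withDensity_eq_integral_toReal_smul₀ hm2
        (Filter.Eventually.of_forall fun x => ENNReal.ofReal_lt_top)]
    have hcont : Continuous (fun x : E => Complex.exp ((inner ℝ x ξ : ℝ) * Complex.I)) := by
      fun_prop
    have hbd : ∀ x : E, ‖Complex.exp ((inner ℝ x ξ : ℝ) * Complex.I)‖ ≤ 1 := fun x => by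
      rw [Complex.norm_exp_ofReal_mul_I]
    have i1 : Integrable (fun x => (ENNReal.ofReal (u x)).toReal •
        Complex.exp ((inner ℝ x ξ : ℝ) * Complex.I)) μ := by
      have h0 : Integrable (fun x => (((ENNReal.ofReal (u x)).toReal : ℝ) : ℂ)) μ := by
        have hp : Integrable (fun x => (ENNReal.ofReal (u x)).toReal) μ := by
          simpa only [ENNReal.toReal_ofReal'] using hu.pos_part
        exact hp.ofReal
      have := Integrable.mul_bdd (c := 1) h0 hcont.aestronglyMeasurable
        (Filter.Eventually.of_forall hbd)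
      simpa only [Complex.real_smul] using this
    have i2 : Integrable (fun x => (ENNReal.ofReal (- u x)).toReal •
        Complex.exp ((inner ℝ x ξ : ℝ) * Complex.I)) μ := by
      have h0 : Integrable (fun x => (((ENNReal.ofReal (- u x)).toReal : ℝ) : ℂ)) μ := by
        have hp : Integrable (fun x => (ENNReal.ofReal (- u x)).toReal) μ := by
          simpa only [ENNReal.toReal_ofReal', Pi.neg_apply] using hu.neg.pos_part
        exact hp.ofReal
      have := Integrable.mul_bdd (c := 1) h0 hcont.aestronglyMeasurable
        (Filter.Eventually.of_forall hbd)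
      simpa only [Complex.real_smul] using this
    rw [← sub_eq_zero, ← integral_sub i1 i2]
    have ec : Integrable (fun x => u x * Real.cos (inner ℝ ξ x)) μ := by
      refine Integrable.mul_bdd (c := 1) hu (by fun_prop) ?_
      exact Filter.Eventually.of_forall fun x => by simpa using Real.abs_cos_le_one _
    have es : Integrable (fun x => u x * Real.sin (inner ℝ ξ x)) μ := by
      refine Integrable.mul_bdd (c := 1) hu (by fun_prop) ?_
      exact Filter.Eventually.of_forall fun x => by simpa using Real.abs_sin_le_one _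
    have e : ∀ x : E, (ENNReal.ofReal (u x)).toReal • Complex.exp ((inner ℝ x ξ : ℝ) * Complex.I)
        - (ENNReal.ofReal (- u x)).toReal • Complex.exp ((inner ℝ x ξ : ℝ) * Complex.I)
        = ((u x * Real.cos (inner ℝ ξ x) : ℝ) : ℂ)
          + ((u x * Real.sin (inner ℝ ξ x) : ℝ) : ℂ) * Complex.I := by
      intro x
      rw [← sub_smul, ENNReal.toReal_ofReal', ENNReal.toReal_ofReal', real_inner_comm ξ x,
        Complex.exp_mul_I]
      have : max (u x) 0 - max (- u x) 0 = u x := by
        rcases le_total 0 (u x) with h | h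
        · rw [max_eq_left h, max_eq_right (by linarith)]; ring
        · rw [max_eq_right h, max_eq_left (by linarith)]; ring
      rw [this, Complex.real_smul]
      push_cast
      ring
    rw [integral_congr_ae (Filter.Eventually.of_forall e)]
    rw [integral_add ec.ofReal (es.ofReal.mul_const _), integral_mul_const,
      integral_complex_ofReal, integral_complex_ofReal, hc, hs]
    simp
  rw [withDensity_eq_iff hm1 hm2 (by
    have := hu.lintegral_lt_top
    exact this.ne)] at key
  filter_upwards [key] with x hx
  have h1 : max (u x) 0 = max (- u x) 0 := by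
    rw [← ENNReal.toReal_ofReal', ← ENNReal.toReal_ofReal', hx]
  simp only [Pi.zero_apply]
  rcases le_total 0 (u x) with h | h
  · rw [max_eq_left h, max_eq_right (by linarith)] at h1; exact h1
  · rw [max_eq_right h, max_eq_left (by linarith)] at h1; linarith

/-- For a bounded Ω with a nontrivial solution the Fourier transform of the indicator vanishes on
the sphere. -/
theorem ft_zero {Ω : Set E} (hb : Bornology.IsBounded Ω) (hm : MeasurableSet Ω)
    {c lam : ℝ} (hlam : 0 < lam) {u : E → ℝ} {G : E → E}
    (hu2 : MemLp u 2 (volume.restrict Ω))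
    (h1 : ∀ φ : E → ℝ, ContDiff ℝ 1 φ → HasCompactSupport φ → ∀ v : E,
        ∫ x in Ω, (u x - c) * (fderiv ℝ φ x v) = - ∫ x in Ω, inner ℝ (G x) v * φ x)
    (h2 : ∀ φ : E → ℝ, ContDiff ℝ 1 φ → HasCompactSupport φ →
        ∫ x in Ω, fderiv ℝ φ x (G x) = lam * ∫ x in Ω, u x * φ x)
    (hne : ¬ (u =ᵐ[volume.restrict Ω] 0)) (ξ : E) (hξ : ‖ξ‖ ^ 2 = lam) :
    ∫ x in Ω, Real.cos (inner ℝ ξ x) = 0 ∧ ∫ x in Ω, Real.sin (inner ℝ ξ x) = 0 := by
  have : IsFiniteMeasure (volume.restrict Ω) := ⟨by
    rw [Measure.restrict_apply_univ]; exact hb.measure_lt_top⟩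
  have hu : Integrable u (volume.restrict Ω) := hu2.integrable (by norm_num)
  have hst := fun η => star hb hm hu h1 h2 η
  have hc : c ≠ 0 := by
    intro hc0
    apply hne
    have hz : ∀ η : E, ‖η‖ ≠ Real.sqrt lam →
        (∫ x in Ω, u x * Real.cos (inner ℝ η x)) = 0 ∧
        (∫ x in Ω, u x * Real.sin (inner ℝ η x)) = 0 := by
      intro η hη
      have hd : ‖η‖ ^ 2 - lam ≠ 0 := by
        intro h0
        apply hη
        rw [← sub_eq_zero.mp h0, Real.sqrt_sq (norm_nonneg _)]
      obtain ⟨a, b⟩ := hst η
      rw [hc0, zero_mul, zero_mul] at a b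
      exact ⟨(mul_eq_zero.mp a).resolve_left hd, (mul_eq_zero.mp b).resolve_left hd⟩
    have hdense : Dense {η : E | ‖η‖ ≠ Real.sqrt lam} := by
      have h0 : interior (Metric.sphere (0 : E) (Real.sqrt lam)) = ∅ :=
        interior_sphere _ (Real.sqrt_pos.mpr hlam).ne'
      have : {η : E | ‖η‖ ≠ Real.sqrt lam} = (Metric.sphere (0 : E) (Real.sqrt lam))ᶜ := by
        ext η; simp
      rw [this]
      exact interior_eq_empty_iff_dense_compl.mp h0
    have cc : Continuous (fun η : E => ∫ x in Ω, u x * Real.cos (inner ℝ η x)) := by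
      refine continuous_of_dominated (bound := fun x => ‖u x‖) ?_ ?_ hu.norm ?_
      · intro η
        exact hu.aestronglyMeasurable.mul (by fun_prop)
      · intro η
        refine Filter.Eventually.of_forall fun x => ?_
        rw [norm_mul]
        have := Real.abs_cos_le_one (inner ℝ η x)
        exact mul_le_of_le_one_right (norm_nonneg _) (by simpa using this)
      · refine Filter.Eventually.of_forall fun x => ?_
        fun_prop
    have cs : Continuous (fun η : E => ∫ x in Ω, u x * Real.sin (inner ℝ η x)) := by
      refine continuous_of_dominated (bound := fun x => ‖u x‖) ?_ ?_ hu.norm ?_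
      · intro η
        exact hu.aestronglyMeasurable.mul (by fun_prop)
      · intro η
        refine Filter.Eventually.of_forall fun x => ?_
        rw [norm_mul]
        have := Real.abs_sin_le_one (inner ℝ η x)
        exact mul_le_of_le_one_right (norm_nonneg _) (by simpa using this)
      · refine Filter.Eventually.of_forall fun x => ?_
        fun_prop
    apply ae_zero_of_ft hu
    · have := Continuous.ext_on hdense cc continuous_const (fun η hη => (hz η hη).1)
      exact fun η => congrFun this η
    · have := Continuous.ext_on hdense cs continuous_const (fun η hη => (hz η hη).2)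
      exact fun η => congrFun this η
  obtain ⟨a, b⟩ := hst ξ
  rw [hξ, sub_self, zero_mul] at a b
  have hcl : c * lam ≠ 0 := mul_ne_zero hc hlam.ne'
  exact ⟨(mul_eq_zero.mp a.symm).resolve_left hcl, (mul_eq_zero.mp b.symm).resolve_left hcl⟩

end Pool.Agent.W632.Schiffer
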