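import Pool.Agent.W632.Schiffer2

set_option autoImplicit false

open MeasureTheory

namespace Pool.Agent.W632.Schiffer

theorem factor (F : ℂ → ℂ) (hF : Differentiable ℂ F) (S : Finset ℂ) (hS : ∀ a ∈ S, F a = 0) :
    ∃ G : ℂ → ℂ, Differentiable ℂ G ∧ ∀ z, F z = (∏ a ∈ S, (z - a)) * G z := by
  classical
  induction S using Finset.induction_on with
  | empty => exact ⟨F, hF, fun z => by simp⟩
  | insert a S ha ih =>
    obtain ⟨G, hG, h⟩ := ih (fun b hb => hS b (Finset.mem_insert_of_mem hb))
    have hGa : G a = 0 := by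
      have := h a
      rw [hS a (Finset.mem_insert_self _ _)] at this
      rcases mul_eq_zero.mp this.symm with h0 | h0
      · rw [Finset.prod_eq_zero_iff] at h0
        obtain ⟨b, hb, hab⟩ := h0
        exact absurd hb (by rw [← sub_eq_zero.mp hab]; exact ha)
      · exact h0
    refine ⟨dslope G a, ?_, fun z => ?_⟩
    · have := (Complex.differentiableOn_dslope (f := G) (s := Set.univ) (c := a)
        Filter.univ_mem).mpr hG.differentiableOn
      exact differentiableOn_univ.mp this
    · have := sub_smul_dslope G a z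
      rw [hGa, sub_zero, smul_eq_mul] at this
      rw [h z, Finset.prod_insert ha, ← this]
      ring

theorem count (F : ℂ → ℂ) (hF : Differentiable ℂ F) {M κ R : ℝ} (hM : 0 < M) (hR : 0 < R)
    (h0 : ‖F 0‖ = M) (hb : ∀ z, ‖F z‖ ≤ M * Real.exp (κ * ‖z‖)) (S : Finset ℂ)
    (hS : ∀ a ∈ S, F a = 0) (hSR : ∀ a ∈ S, ‖a‖ ≤ R) :
    (4 : ℝ) ^ S.card ≤ Real.exp (κ * (5 * R)) := by
  obtain ⟨G, hG, h⟩ := factor F hF S hS
  have hfr : ∀ z ∈ frontier (Metric.ball (0 : ℂ) (5 * R)),
      ‖G z‖ ≤ M * Real.exp (κ * (5 * R)) / (4 * R) ^ S.card := by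
    intro z hz
    rw [frontier_ball (0 : ℂ) (by positivity : (5 * R) ≠ 0), mem_sphere_zero_iff_norm] at hz
    have hprod : (4 * R) ^ S.card ≤ ‖∏ a ∈ S, (z - a)‖ := by
      rw [norm_prod, ← Finset.prod_const]
      refine Finset.prod_le_prod (fun _ _ => by positivity) fun a ha => ?_
      have h1 := norm_sub_norm_le z a
      have h2 := hSR a ha
      rw [hz] at h1
      linarith
    have hpos : (0 : ℝ) < (4 * R) ^ S.card := by positivity
    rw [le_div_iff₀ hpos]
    calc ‖G z‖ * (4 * R) ^ S.card ≤ ‖G z‖ * ‖∏ a ∈ S, (z - a)‖ :=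
          mul_le_mul_of_nonneg_left hprod (norm_nonneg _)
      _ = ‖F z‖ := by rw [h z, norm_mul, mul_comm]
      _ ≤ M * Real.exp (κ * (5 * R)) := by
          have := hb z
          rwa [hz] at this
  have hG0 : ‖G 0‖ ≤ M * Real.exp (κ * (5 * R)) / (4 * R) ^ S.card := by
    refine Complex.norm_le_of_forall_mem_frontier_norm_le Metric.isBounded_ball
      hG.diffContOnCl hfr (subset_closure ?_)
    simp only [Metric.mem_ball, dist_self]
    positivity
  have hF0 : ‖F 0‖ ≤ R ^ S.card * (M * Real.exp (κ * (5 * R)) / (4 * R) ^ S.card) := by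
    rw [h 0, norm_mul]
    refine mul_le_mul ?_ hG0 (norm_nonneg _) (by positivity)
    rw [norm_prod, ← Finset.prod_const]
    refine Finset.prod_le_prod (fun _ _ => norm_nonneg _) fun a ha => ?_
    rw [zero_sub, norm_neg]
    exact hSR a ha
  rw [h0] at hF0
  have hR' : (0 : ℝ) < R ^ S.card := by positivity
  have h4 : (0 : ℝ) < (4 : ℝ) ^ S.card := by positivity
  have e : R ^ S.card * (M * Real.exp (κ * (5 * R)) / (4 * R) ^ S.card)
      = M * Real.exp (κ * (5 * R)) / 4 ^ S.card := by
    rw [mul_pow]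
    field_simp
  rw [e, le_div_iff₀ h4] at hF0
  exact le_of_mul_le_mul_left hF0 hM

/-- The Fourier transform along a line: an upper bound for the number of real zeros. -/
theorem count_line {α : Type*} [MeasurableSpace α] {μ : Measure α} [IsFiniteMeasure μ]
    (hμ : μ ≠ 0) {s : α → ℝ} (hs : Measurable s) {κ : ℝ} (hκ : ∀ᵐ x ∂μ, |s x| ≤ κ)
    {R : ℝ} (hR : 0 < R) (S : Finset ℝ) (hS0 : ∀ r ∈ S, 0 < r) (hSR : ∀ r ∈ S, r ≤ R)
    (hc : ∀ r ∈ S, ∫ x, Real.cos (r * s x) ∂μ = 0)
    (hsn : ∀ r ∈ S, ∫ x, Real.sin (r * s x) ∂μ = 0) :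
    (4 : ℝ) ^ (2 * S.card) ≤ Real.exp (κ * (5 * R)) := by
  classical
  set F : ℂ → ℂ := fun z => ProbabilityTheory.complexMGF s μ (Complex.I * z) with hFdef
  have hexp : ∀ t : ℝ, Integrable (fun x => Real.exp (t * s x)) μ := by
    intro t
    refine Integrable.of_bound (by fun_prop) (Real.exp (|t| * κ)) ?_
    filter_upwards [hκ] with x hx
    rw [Real.norm_eq_abs, Real.abs_exp]
    refine Real.exp_le_exp.mpr ?_
    calc t * s x ≤ |t * s x| := le_abs_self _
      _ = |t| * |s x| := abs_mul _ _
      _ ≤ |t| * κ := mul_le_mul_of_nonneg_left hx (abs_nonneg _)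
  have hset : ProbabilityTheory.integrableExpSet s μ = Set.univ := by
    ext t
    simpa [ProbabilityTheory.integrableExpSet] using hexp t
  have hF : Differentiable ℂ F := by
    intro z
    have h1 : DifferentiableAt ℂ (ProbabilityTheory.complexMGF s μ) (Complex.I * z) :=
      (ProbabilityTheory.hasDerivAt_complexMGF (by rw [hset]; simp)).differentiableAt
    exact h1.comp z ((differentiableAt_id.const_mul _))
  have hFz : ∀ z, F z = ∫ x, Complex.exp (Complex.I * z * s x) ∂μ := fun z => rfl
  have hM : 0 < μ.real Set.univ := by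
    rw [measureReal_def, ENNReal.toReal_pos_iff]
    exact ⟨pos_iff_ne_zero.mpr (by simpa using hμ), measure_lt_top _ _⟩
  have h0 : ‖F 0‖ = μ.real Set.univ := by
    rw [hFz]
    simp
  have hb : ∀ z, ‖F z‖ ≤ μ.real Set.univ * Real.exp (κ * ‖z‖) := by
    intro z
    rw [hFz, mul_comm (μ.real Set.univ)]
    refine norm_integral_le_of_norm_le_const ?_
    filter_upwards [hκ] with x hx
    rw [Complex.norm_exp]
    refine Real.exp_le_exp.mpr ?_
    have : (Complex.I * z * (s x : ℂ)).re = - z.im * s x := by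
      simp
    rw [this]
    calc - z.im * s x ≤ |- z.im * s x| := le_abs_self _
      _ = |z.im| * |s x| := by rw [abs_mul, abs_neg]
      _ ≤ ‖z‖ * κ := mul_le_mul (Complex.abs_im_le_norm z) hx (abs_nonneg _) (norm_nonneg _)
      _ = κ * ‖z‖ := mul_comm _ _
  have hint : ∀ r : ℝ, Integrable (fun x => Real.cos (r * s x)) μ ∧
      Integrable (fun x => Real.sin (r * s x)) μ := by
    intro r
    constructor
    · refine Integrable.of_bound (by fun_prop) 1 (Filter.Eventually.of_forall fun x => ?_)
      simpa using Real.abs_cos_le_one _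
    · refine Integrable.of_bound (by fun_prop) 1 (Filter.Eventually.of_forall fun x => ?_)
      simpa using Real.abs_sin_le_one _
  have hzero : ∀ r : ℝ, (∫ x, Real.cos (r * s x) ∂μ = 0) → (∫ x, Real.sin (r * s x) ∂μ = 0) →
      F (r : ℂ) = 0 := by
    intro r h1 h2
    have e : ∀ x, Complex.exp (Complex.I * (r : ℂ) * s x)
        = ((Real.cos (r * s x) : ℝ) : ℂ) + ((Real.sin (r * s x) : ℝ) : ℂ) * Complex.I := by
      intro x
      rw [show Complex.I * (r : ℂ) * (s x : ℂ) = ((r * s x : ℝ) : ℂ) * Complex.I by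
        push_cast; ring, Complex.exp_mul_I]
      push_cast
      ring
    rw [hFz, integral_congr_ae (Filter.Eventually.of_forall e),
      integral_add (hint r).1.ofReal ((hint r).2.ofReal.mul_const _), integral_mul_const,
      integral_complex_ofReal, integral_complex_ofReal, h1, h2]
    simp
  let T : Finset ℂ := (S.image (fun r : ℝ => (r : ℂ))) ∪ (S.image (fun r : ℝ => ((-r : ℝ) : ℂ)))
  have hT : T.card = 2 * S.card := by
    rw [Finset.card_union_of_disjoint, Finset.card_image_of_injective,
      Finset.card_image_of_injective, two_mul]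
    · intro a b hab
      have : (-a : ℝ) = -b := Complex.ofReal_injective hab
      linarith
    · exact Complex.ofReal_injective
    · rw [Finset.disjoint_left]
      intro z hz1 hz2
      rw [Finset.mem_image] at hz1 hz2
      obtain ⟨a, ha, rfl⟩ := hz1
      obtain ⟨b, hb', hab⟩ := hz2
      have : (-b : ℝ) = a := Complex.ofReal_injective hab
      have h1 := hS0 a ha
      have h2 := hS0 b hb'
      linarith
  rw [← hT]
  refine count F hF hM hR h0 hb T ?_ ?_
  · intro z hz
    rw [Finset.mem_union, Finset.mem_image, Finset.mem_image] at hz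
    rcases hz with ⟨r, hr, rfl⟩ | ⟨r, hr, rfl⟩
    · exact hzero r (hc r hr) (hsn r hr)
    · refine hzero (-r) ?_ ?_
      · simpa using hc r hr
      · have : ∫ x, Real.sin (-r * s x) ∂μ = - ∫ x, Real.sin (r * s x) ∂μ := by
          rw [← integral_neg]
          refine integral_congr_ae (Filter.Eventually.of_forall fun x => ?_)
          simp
        rw [this, hsn r hr, neg_zero]
  · intro z hz
    rw [Finset.mem_union, Finset.mem_image, Finset.mem_image] at hz
    rcases hz with ⟨r, hr, rfl⟩ | ⟨r, hr, rfl⟩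
    · rw [Complex.norm_real, Real.norm_eq_abs, abs_of_pos (hS0 r hr)]
      exact hSR r hr
    · rw [Complex.norm_real, Real.norm_eq_abs, abs_neg, abs_of_pos (hS0 r hr)]
      exact hSR r hr

end Pool.Agent.W632.Schiffer
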