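import Pool.Agent.W632.Schiffer3

set_option autoImplicit false

open MeasureTheory

namespace Pool.Agent.W632.Schiffer

section lin

variable {E : Type*} [NormedAddCommGroup E] [InnerProductSpace ℝ E] [FiniteDimensional ℝ E]

omit [FiniteDimensional ℝ E] in
/-- two linear maps which do not give the same norms give different norms on a dense set -/
theorem dense_ne (M M' : E →L[ℝ] E) {v : E} (h : ‖M v‖ ≠ ‖M' v‖) :
    Dense {θ : E | ‖M θ‖ ≠ ‖M' θ‖} := by
  intro θ0
  rw [Metric.mem_closure_iff]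
  intro ε hε
  by_contra hcon
  push Not at hcon
  have hz : ∀ b : E, dist θ0 b < ε → ‖M b‖ ^ 2 - ‖M' b‖ ^ 2 = 0 := by
    intro b hb
    by_contra hne
    have : b ∈ {θ : E | ‖M θ‖ ≠ ‖M' θ‖} := by
      intro he
      rw [he] at hne
      exact hne (sub_self _)
    exact absurd hb (not_lt.mpr (hcon b this))
  set t : ℝ := ε / (2 * (‖v‖ + 1)) with ht
  have hv : 0 < ‖v‖ + 1 := by positivity
  have htpos : 0 < t := by positivity
  have htv : ‖t • v‖ < ε := by
    rw [norm_smul, Real.norm_eq_abs, abs_of_pos htpos, ht, div_mul_eq_mul_div, div_lt_iff₀ (by positivity)]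
    nlinarith [norm_nonneg v]
  have e0 := hz θ0 (by rw [dist_self]; exact hε)
  have e1 := hz (θ0 + t • v) (by rw [dist_eq_norm, sub_add_cancel_left, norm_neg]; exact htv)
  have e2 := hz (θ0 - t • v) (by rw [dist_eq_norm, sub_sub_cancel]; exact htv)
  have p1 := parallelogram_law_with_norm ℝ (M θ0) (M (t • v))
  have p2 := parallelogram_law_with_norm ℝ (M' θ0) (M' (t • v))
  rw [← map_add, ← map_sub] at p1 p2
  have n1 : ‖M (t • v)‖ = t * ‖M v‖ := by
    rw [map_smul, norm_smul, Real.norm_eq_abs, abs_of_pos htpos]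
  have n2 : ‖M' (t • v)‖ = t * ‖M' v‖ := by
    rw [map_smul, norm_smul, Real.norm_eq_abs, abs_of_pos htpos]
  rw [n1] at p1
  rw [n2] at p2
  have key : t ^ 2 * (‖M v‖ ^ 2 - ‖M' v‖ ^ 2) = 0 := by nlinarith
  have : ‖M v‖ ^ 2 - ‖M' v‖ ^ 2 = 0 := (mul_eq_zero.mp key).resolve_left (by positivity)
  apply h
  have h2 : ‖M v‖ ^ 2 = ‖M' v‖ ^ 2 := by linarith
  exact (sq_eq_sq₀ (norm_nonneg _) (norm_nonneg _)).mp h2

/-- the transpose of the inverse -/
noncomputable def Mt (B : E ≃L[ℝ] E) : E →L[ℝ] E :=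
  ContinuousLinearMap.adjoint (B.symm : E →L[ℝ] E)

theorem inner_Mt (B : E ≃L[ℝ] E) (θ x : E) : inner ℝ (Mt B θ) (B x) = inner ℝ θ x := by
  rw [Mt, ContinuousLinearMap.adjoint_inner_left]
  simp

theorem norm_le_of_Mt (B B' : E ≃L[ℝ] E) (h : ∀ θ, ‖Mt B θ‖ = ‖Mt B' θ‖) (x : E) :
    ‖B x‖ ≤ ‖B' x‖ := by
  set θ : E := ContinuousLinearMap.adjoint (B : E →L[ℝ] E) (B x) with hθ
  have h1 : Mt B θ = B x := by
    refine ext_inner_right ℝ fun y => ?_
    rw [Mt, ContinuousLinearMap.adjoint_inner_left, hθ, ContinuousLinearMap.adjoint_inner_left]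
    simp
  have h2 : ‖B x‖ ^ 2 = inner ℝ θ x := by
    rw [hθ, ContinuousLinearMap.adjoint_inner_left]
    simp
  have h3 : inner ℝ θ x = inner ℝ (Mt B' θ) (B' x) := (inner_Mt B' θ x).symm
  have h4 : inner ℝ (Mt B' θ) (B' x) ≤ ‖Mt B' θ‖ * ‖B' x‖ := real_inner_le_norm _ _
  rw [← h θ, h1] at h4
  rcases (norm_nonneg (B x)).eq_or_lt with h0 | h0
  · rw [← h0]; exact norm_nonneg _
  · have : ‖B x‖ * ‖B x‖ ≤ ‖B x‖ * ‖B' x‖ := by
      rw [← sq, h2, h3]; exact h4
    exact le_of_mul_le_mul_left this h0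

omit [FiniteDimensional ℝ E] in
/-- equivalence from equality of norms -/
theorem exists_isometry (B B' : E ≃L[ℝ] E) (h : ∀ x, ‖B x‖ = ‖B' x‖) :
    ∃ U : E ≃ₗᵢ[ℝ] E, ∀ x, B x = U (B' x) := by
  refine ⟨⟨(B'.symm.trans B).toLinearEquiv, fun x => ?_⟩, fun x => ?_⟩
  · have := h (B'.symm x)
    simpa using this
  · show B x = (B'.symm.trans B) (B' x)
    simp

end lin

section main

variable {E : Type*} [NormedAddCommGroup E] [InnerProductSpace ℝ E] [FiniteDimensional ℝ E]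
  [MeasurableSpace E] [BorelSpace E]

/-- `Bad Ω B`: the Fourier transform of the indicator of `B '' Ω` vanishes on the unit sphere. -/
def Bad (Ω : Set E) (B : E ≃L[ℝ] E) : Prop :=
  ∀ ξ : E, ‖ξ‖ = 1 → ∫ x in Ω, Real.cos (inner ℝ ξ (B x)) = 0 ∧
    ∫ x in Ω, Real.sin (inner ℝ ξ (B x)) = 0

/-- scaled map -/
noncomputable def scale (s : ℝ) (hs : 0 < s) (A : E ≃L[ℝ] E) : E ≃L[ℝ] E :=
  A.trans (ContinuousLinearEquiv.smulLeft (Units.mk0 s hs.ne'))

omit [FiniteDimensional ℝ E] [MeasurableSpace E] [BorelSpace E] in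
theorem scale_apply (s : ℝ) (hs : 0 < s) (A : E ≃L[ℝ] E) (x : E) : scale s hs A x = s • A x := rfl

theorem setIntegral_image (A : E ≃L[ℝ] E) {Ω : Set E} (hm : MeasurableSet Ω) (g : E → ℝ) :
    ∫ y in A '' Ω, g y = |(A : E →L[ℝ] E).det| * ∫ x in Ω, g (A x) := by
  have := integral_image_eq_integral_abs_det_fderiv_smul volume hm
    (f := fun x => A x) (f' := fun _ => (A : E →L[ℝ] E))
    (fun x _ => A.hasFDerivAt.hasFDerivWithinAt) A.injective.injOn g
  rw [this, ← integral_const_mul]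
  rfl

theorem bad_of_solvable {Ω : Set E} (hb : Bornology.IsBounded Ω) (ho : IsOpen Ω) (A : E ≃L[ℝ] E)
    {c lam : ℝ} (hlam : 0 < lam) {u : E → ℝ} {G : E → E}
    (hu2 : MemLp u 2 (volume.restrict (A '' Ω)))
    (h1 : ∀ φ : E → ℝ, ContDiff ℝ 1 φ → HasCompactSupport φ → ∀ v : E,
        ∫ x in A '' Ω, (u x - c) * (fderiv ℝ φ x v) = - ∫ x in A '' Ω, inner ℝ (G x) v * φ x)
    (h2 : ∀ φ : E → ℝ, ContDiff ℝ 1 φ → HasCompactSupport φ →
        ∫ x in A '' Ω, fderiv ℝ φ x (G x) = lam * ∫ x in A '' Ω, u x * φ x)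
    (hne : ¬ (u =ᵐ[volume.restrict (A '' Ω)] 0)) :
    Bad Ω (scale (Real.sqrt lam) (Real.sqrt_pos.mpr hlam) A) := by
  intro ξ hξ
  have hb' : Bornology.IsBounded (A '' Ω) := by
    have := (A : E →L[ℝ] E).lipschitz.isBounded_image hb
    exact this
  have ho' : IsOpen (A '' Ω) := A.toHomeomorph.isOpenMap _ ho
  have hdet : |(A : E →L[ℝ] E).det| ≠ 0 := by
    rw [abs_ne_zero]
    have := A.toLinearEquiv.isUnit_det' 
    exact this.ne_zero
  have key := ft_zero hb' ho'.measurableSet hlam hu2 h1 h2 hne (Real.sqrt lam • ξ) (by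
    rw [norm_smul, hξ, mul_one, Real.norm_eq_abs, sq_abs, Real.sq_sqrt hlam.le])
  obtain ⟨k1, k2⟩ := key
  rw [setIntegral_image A ho.measurableSet] at k1 k2
  have k1' := (mul_eq_zero.mp k1).resolve_left hdet
  have k2' := (mul_eq_zero.mp k2).resolve_left hdet
  simp only [scale_apply, inner_smul_right]
  simp only [inner_smul_left, RCLike.conj_to_real] at k1' k2'
  exact ⟨k1', k2'⟩

/-- a linear functional on a bounded set is within half of the diameter of some constant -/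
theorem exists_mid {Ω : Set E} (hb : Bornology.IsBounded Ω) (hne : Ω.Nonempty) (θ : E)
    (hθ : ‖θ‖ = 1) : ∃ m : ℝ, ∀ x ∈ Ω, |inner ℝ θ x - m| ≤ Metric.diam Ω / 2 := by
  set f : E → ℝ := fun x => inner ℝ θ x with hf
  have hd : ∀ x ∈ Ω, ∀ y ∈ Ω, f x - f y ≤ Metric.diam Ω := by
    intro x hx y hy
    have h1 : f x - f y = inner ℝ θ (x - y) := by rw [hf]; simp only [inner_sub_right]
    rw [h1]
    calc inner ℝ θ (x - y) ≤ ‖θ‖ * ‖x - y‖ := real_inner_le_norm _ _
      _ = dist x y := by rw [hθ, one_mul, dist_eq_norm]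
      _ ≤ Metric.diam Ω := Metric.dist_le_diam_of_mem hb hx hy
  obtain ⟨x0, hx0⟩ := hne
  have hbb : BddBelow (f '' Ω) := ⟨f x0 - Metric.diam Ω, by
    rintro _ ⟨y, hy, rfl⟩
    linarith [hd x0 hx0 y hy]⟩
  have hba : BddAbove (f '' Ω) := ⟨f x0 + Metric.diam Ω, by
    rintro _ ⟨y, hy, rfl⟩
    linarith [hd y hy x0 hx0]⟩
  have hn : (f '' Ω).Nonempty := ⟨_, x0, hx0, rfl⟩
  have hwidth : sSup (f '' Ω) ≤ sInf (f '' Ω) + Metric.diam Ω := by
    refine csSup_le hn ?_
    rintro _ ⟨x, hx, rfl⟩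
    have : f x - Metric.diam Ω ≤ sInf (f '' Ω) := by
      refine le_csInf hn ?_
      rintro _ ⟨y, hy, rfl⟩
      linarith [hd x hx y hy]
    linarith
  refine ⟨(sInf (f '' Ω) + sSup (f '' Ω)) / 2, fun x hx => ?_⟩
  have h1 : sInf (f '' Ω) ≤ f x := csInf_le hbb ⟨x, hx, rfl⟩
  have h2 : f x ≤ sSup (f '' Ω) := le_csSup hba ⟨x, hx, rfl⟩
  rw [abs_le]
  constructor
  · show _ ≤ f x - _
    linarith
  · show f x - _ ≤ _
    linarith

/-- the counting bound -/
theorem card_le [Nontrivial E] {Ω : Set E} (hb : Bornology.IsBounded Ω) (ho : IsOpen Ω)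
    (hne : Ω.Nonempty) {R : ℝ} (hR : 0 ≤ R) (S : Finset (E ≃L[ℝ] E))
    (hS : ∀ B ∈ S, ‖(B : E →L[ℝ] E)‖ ≤ R ∧ Bad Ω B)
    (hineq : ∀ B ∈ S, ∀ B' ∈ S, (∀ x, ‖B x‖ = ‖B' x‖) → B = B') :
    (S.card : ℝ) ≤ Metric.diam Ω * R := by
  classical
  rcases S.eq_empty_or_nonempty with hS0 | ⟨B0, hB0⟩
  · rw [hS0]
    simp only [Finset.card_empty, Nat.cast_zero]
    exact mul_nonneg Metric.diam_nonneg hR
  have hR0 : 0 < R := by
    refine lt_of_lt_of_le ?_ (hS B0 hB0).1
    rw [norm_pos_iff]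
    intro h0
    obtain ⟨v, hv⟩ := exists_ne (0 : E)
    apply hv
    have : (B0 : E →L[ℝ] E) v = 0 := by rw [h0]; rfl
    exact B0.map_eq_zero_iff.mp this
  -- choice of a direction
  obtain ⟨θ, hθ1, hθ⟩ : ∃ θ : E, ‖θ‖ = 1 ∧ ∀ B ∈ S, ∀ B' ∈ S, B ≠ B' → ‖Mt B θ‖ ≠ ‖Mt B' θ‖ := by
    let I : Set ((E ≃L[ℝ] E) × (E ≃L[ℝ] E)) := {p | p.1 ∈ S ∧ p.2 ∈ S ∧ p.1 ≠ p.2}
    have hI : I.Countable := by
      refine Set.Finite.countable (Set.Finite.subset (S ×ˢ S).finite_toSet ?_)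
      intro p hp
      rw [Finset.mem_coe, Finset.mem_product]
      exact ⟨hp.1, hp.2.1⟩
    have hd : Dense (⋂ p ∈ I, {θ : E | ‖Mt p.1 θ‖ ≠ ‖Mt p.2 θ‖}) := by
      refine dense_biInter_of_isOpen (fun p _ => ?_) hI (fun p hp => ?_)
      · exact isOpen_ne_fun (by fun_prop) (by fun_prop)
      · by_contra hnd
        have hall : ∀ v, ‖Mt p.1 v‖ = ‖Mt p.2 v‖ := by
          intro v
          by_contra hv
          exact hnd (dense_ne _ _ hv)
        apply hp.2.2
        refine hineq p.1 hp.1 p.2 hp.2.1 fun x => le_antisymm (norm_le_of_Mt _ _ hall x)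
          (norm_le_of_Mt _ _ (fun θ => (hall θ).symm) x)
    obtain ⟨v, hv⟩ := exists_ne (0 : E)
    obtain ⟨θ, hθ1, hθ2⟩ := hd.inter_open_nonempty {θ : E | θ ≠ 0} (isOpen_ne) ⟨v, hv⟩
    have hθ1' : θ ≠ 0 := hθ1
    refine ⟨‖θ‖⁻¹ • θ, ?_, fun B hB B' hB' hne' => ?_⟩
    · rw [norm_smul, norm_inv, norm_norm, inv_mul_cancel₀ (norm_ne_zero_iff.mpr hθ1')]
    · rw [Set.mem_iInter₂] at hθ2
      have h3 := hθ2 (B, B') ⟨hB, hB', hne'⟩
      have h3' : ‖Mt B θ‖ ≠ ‖Mt B' θ‖ := h3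
      rw [map_smul, map_smul, norm_smul, norm_smul]
      intro he
      exact h3' (mul_left_cancel₀ (by
        rw [norm_ne_zero_iff]; exact inv_ne_zero (norm_ne_zero_iff.mpr hθ1')) he)
  obtain ⟨m, hm⟩ := exists_mid hb hne θ hθ1
  have hMt0 : ∀ B : E ≃L[ℝ] E, 0 < ‖Mt B θ‖ := by
    intro B
    rw [norm_pos_iff]
    intro h0
    have := inner_Mt B θ θ
    rw [h0, inner_zero_left, real_inner_self_eq_norm_sq, hθ1] at this
    norm_num at this
  let r : (E ≃L[ℝ] E) → ℝ := fun B => ‖Mt B θ‖⁻¹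
  have hrinj : Set.InjOn r S := by
    intro B hB B' hB' h
    by_contra hne'
    exact hθ B hB B' hB' hne' (inv_injective h)
  have hrpos : ∀ B, 0 < r B := fun B => inv_pos.mpr (hMt0 B)
  have hrR : ∀ B ∈ S, r B ≤ R := by
    intro B hB
    refine le_trans ?_ (hS B hB).1
    rw [inv_le_iff_one_le_mul₀ (hMt0 B)]
    have h1 := inner_Mt B θ θ
    rw [real_inner_self_eq_norm_sq, hθ1, one_pow] at h1
    calc (1 : ℝ) = inner ℝ (Mt B θ) (B θ) := h1.symm
      _ ≤ ‖Mt B θ‖ * ‖B θ‖ := real_inner_le_norm _ _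
      _ ≤ ‖Mt B θ‖ * (‖(B : E →L[ℝ] E)‖ * ‖θ‖) := by
          refine mul_le_mul_of_nonneg_left ?_ (norm_nonneg _)
          exact (B : E →L[ℝ] E).le_opNorm θ
      _ = ‖(B : E →L[ℝ] E)‖ * ‖Mt B θ‖ := by rw [hθ1]; ring
  have hint : ∀ B ∈ S, (∫ x in Ω, Real.cos (r B * inner ℝ θ x) = 0) ∧
      ∫ x in Ω, Real.sin (r B * inner ℝ θ x) = 0 := by
    intro B hB
    have h1 := (hS B hB).2 (r B • Mt B θ) (by
      rw [norm_smul, Real.norm_eq_abs, abs_of_pos (hrpos B)]
      exact inv_mul_cancel₀ (hMt0 B).ne')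
    simp only [inner_smul_left, RCLike.conj_to_real, inner_Mt] at h1
    exact h1
  have hvol : (volume.restrict Ω : Measure E) ≠ 0 := by
    rw [Ne, Measure.restrict_eq_zero]
    exact (ho.measure_pos _ hne).ne'
  have : IsFiniteMeasure (volume.restrict Ω : Measure E) := ⟨by
    rw [Measure.restrict_apply_univ]; exact hb.measure_lt_top⟩
  have hic : ∀ t : ℝ, Integrable (fun x : E => Real.cos (t * inner ℝ θ x)) (volume.restrict Ω) := by
    intro t
    refine Integrable.of_bound (by fun_prop) 1 (Filter.Eventually.of_forall fun x => ?_)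
    simpa using Real.abs_cos_le_one _
  have his : ∀ t : ℝ, Integrable (fun x : E => Real.sin (t * inner ℝ θ x)) (volume.restrict Ω) := by
    intro t
    refine Integrable.of_bound (by fun_prop) 1 (Filter.Eventually.of_forall fun x => ?_)
    simpa using Real.abs_sin_le_one _
  have hcnt := count_line (μ := volume.restrict Ω) hvol (s := fun x => inner ℝ θ x - m)
    (by fun_prop) (κ := Metric.diam Ω / 2)
    (by
      rw [ae_restrict_iff' ho.measurableSet]
      exact Filter.Eventually.of_forall hm) hR0 (S.image r)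
    (by
      intro t ht
      obtain ⟨B, hB, rfl⟩ := Finset.mem_image.mp ht
      exact hrpos B)
    (by
      intro t ht
      obtain ⟨B, hB, rfl⟩ := Finset.mem_image.mp ht
      exact hrR B hB)
    (by
      intro t ht
      obtain ⟨B, hB, rfl⟩ := Finset.mem_image.mp ht
      have e : ∀ x : E, Real.cos (r B * (inner ℝ θ x - m))
          = Real.cos (r B * m) * Real.cos (r B * inner ℝ θ x)
            + Real.sin (r B * m) * Real.sin (r B * inner ℝ θ x) := by
        intro x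
        rw [mul_sub, Real.cos_sub]; ring
      rw [integral_congr_ae (Filter.Eventually.of_forall e),
        integral_add ((hic _).const_mul _) ((his _).const_mul _), integral_const_mul,
        integral_const_mul, (hint B hB).1, (hint B hB).2]
      ring)
    (by
      intro t ht
      obtain ⟨B, hB, rfl⟩ := Finset.mem_image.mp ht
      have e : ∀ x : E, Real.sin (r B * (inner ℝ θ x - m))
          = Real.cos (r B * m) * Real.sin (r B * inner ℝ θ x)
            - Real.sin (r B * m) * Real.cos (r B * inner ℝ θ x) := by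
        intro x
        rw [mul_sub, Real.sin_sub]; ring
      rw [integral_congr_ae (Filter.Eventually.of_forall e),
        integral_sub ((his _).const_mul _) ((hic _).const_mul _), integral_const_mul,
        integral_const_mul, (hint B hB).1, (hint B hB).2]
      ring)
  rw [Finset.card_image_of_injOn hrinj] at hcnt
  have hlog := Real.log_le_log (by positivity) hcnt
  rw [Real.log_exp, Real.log_pow] at hlog
  have h4 : Real.log 4 = 2 * Real.log 2 := by
    rw [show (4 : ℝ) = 2 ^ 2 by norm_num, Real.log_pow]; norm_num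
  rw [h4] at hlog
  have hl2 := Real.log_two_gt_d9
  push_cast at hlog
  have hd0 : 0 ≤ Metric.diam Ω * R := mul_nonneg Metric.diam_nonneg hR
  have hc0 : (0 : ℝ) ≤ S.card := Nat.cast_nonneg _
  nlinarith

end main

end Pool.Agent.W632.Schiffer
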